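import Pool.Agent.Results.MP_cd64ef_nt.KneserPollard

set_option autoImplicit false

open scoped Pointwise

namespace Pool.Agent.Results.MP_cd64ef_nt.GroupsClassified

universe u

/-- The number of pairs (a, b) in A × B with a + b = g. -/
noncomputable def rep {G : Type u} [AddCommGroup G] (A B : Set G) (g : G) : ℕ :=
  Set.ncard {p : G × G | p.1 ∈ A ∧ p.2 ∈ B ∧ p.1 + p.2 = g}

/-- The t-popular sumset of A and B. -/
def popSum {G : Type u} [AddCommGroup G] (A B : Set G) (t : ℕ) : Set G :=
  {g | t ≤ rep A B g}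

/-- The stabilizer of X: all e with e + X = X. -/
def stab {G : Type u} [AddCommGroup G] (X : Set G) : Set G :=
  {e | (fun x => e + x) '' X = X}

/-- The statement of Q1 for one abelian group G, for all t, A and B. -/
def Conjecture (G : Type u) [AddCommGroup G] : Prop :=
  ∀ (t : ℕ) (A B : Set G), 1 ≤ t → A.Finite → B.Finite → t ≤ A.ncard → t ≤ B.ncard →
    ∑ i ∈ Finset.Icc 1 t, ((popSum A B i).ncard : ℤ) < t * A.ncard + t * B.ncard - t ^ 2 →
    ∀ (H : Set G) (s u : ℕ), H = stab (popSum A B t) → t = s * H.ncard + u → 1 ≤ u →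
      u ≤ H.ncard →
      (∃ A' B' : Set G, A' ⊆ A ∧ B' ⊆ B ∧
        (A \ A').ncard + (B \ B').ncard < u ∧
        (A' + B' = popSum A' B' u ∧ popSum A' B' u = popSum A B u) ∧
        (stab (A' + B') = stab (popSum A' B' u) ∧ stab (popSum A' B' u) = H)) ∧
      (t : ℤ) * A.ncard + t * B.ncard - t ^ 2 - u * (H.ncard - u) ≤
        ∑ i ∈ Finset.Icc 1 t, ((popSum A B i).ncard : ℤ)

section General
variable {G : Type u} [AddCommGroup G]

lemma mem_stab {X : Set G} {e : G} : e ∈ stab X ↔ ∀ x, x + e ∈ X ↔ x ∈ X :=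
  KneserPollard.mem_stab

lemma popSum_subset (A B : Set G) {i : ℕ} (hi : 1 ≤ i) : popSum A B i ⊆ A + B :=
  KneserPollard.popSum_subset A B hi

lemma stab_subset {X : Set G} (hX : X.Nonempty) : stab X ⊆ X - X :=
  KneserPollard.stab_subset hX

/-- the stabilizer as a subgroup -/
def stabSub (X : Set G) : AddSubgroup G where
  carrier := stab X
  zero_mem' := by
    change (0 : G) ∈ stab X
    rw [mem_stab]
    simp
  add_mem' := by
    intro a b ha hb
    change a + b ∈ stab X
    change a ∈ stab X at ha
    change b ∈ stab X at hb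
    rw [mem_stab] at ha hb ⊢
    intro x
    rw [← add_assoc, hb, ha]
  neg_mem' := by
    intro a ha
    change -a ∈ stab X
    change a ∈ stab X at ha
    rw [mem_stab] at ha ⊢
    intro x
    rw [← ha (x + -a)]
    simp

lemma card_sub (H : AddSubgroup G) : Nat.card H = (H : Set G).ncard :=
  Nat.card_coe_set_eq (H : Set G)

lemma coe_stabSub (X : Set G) : (stabSub X : Set G) = stab X := rfl

lemma stab_subgroup (H : AddSubgroup G) : stab (H : Set G) = H := by
  ext e
  rw [mem_stab]
  constructor
  · intro h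
    simpa using (h 0).2 H.zero_mem
  · intro he x
    exact H.add_mem_cancel_right he

lemma stab_univ : stab (Set.univ : Set G) = Set.univ := by
  ext e
  simp [mem_stab]

lemma rep_eq (A B : Set G) (g : G) : rep A B g = {a | a ∈ A ∧ g - a ∈ B}.ncard := by
  have h1 : {p : G × G | p.1 ∈ A ∧ p.2 ∈ B ∧ p.1 + p.2 = g} =
      (fun v => (v, g - v)) '' {a | a ∈ A ∧ g - a ∈ B} := by
    ext ⟨a, b⟩
    constructor
    · rintro ⟨ha, hb, rfl⟩
      exact ⟨a, ⟨ha, by simpa using hb⟩, by simp⟩
    · rintro ⟨v, ⟨h1, h2⟩, h3⟩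
      obtain ⟨rfl, rfl⟩ := Prod.mk.inj h3
      exact ⟨h1, h2, by simp⟩
  rw [rep, h1, Set.ncard_image_of_injective _ (fun a b hab => (Prod.mk.inj hab).1)]

lemma sum_le (A B : Set G) (hA : A.Finite) (hB : B.Finite) (n : ℕ) :
    ∑ i ∈ Finset.Icc 1 n, (popSum A B i).ncard ≤ A.ncard * B.ncard := by
  classical
  lift A to Finset G using hA
  lift B to Finset G using hB
  have h1 : ∀ i ∈ Finset.Icc 1 n, (popSum (A : Set G) (B : Set G) i).ncard =
      ∑ g ∈ A + B, if i ≤ rep (A : Set G) (B : Set G) g then 1 else 0 := by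
    intro i hi
    rw [← Finset.card_filter, ← Set.ncard_coe_finset]
    congr 1
    ext g
    simp only [Finset.coe_filter, Set.mem_ofPred_eq]
    constructor
    · intro hg
      refine ⟨?_, hg⟩
      have := popSum_subset _ _ (Finset.mem_Icc.1 hi).1 hg
      rwa [← Finset.coe_add, Finset.mem_coe] at this
    · exact fun hg => hg.2
  rw [Finset.sum_congr rfl h1, Finset.sum_comm, Set.ncard_coe_finset, Set.ncard_coe_finset,
    ← Finset.card_product,
    Finset.card_eq_sum_card_fiberwise (f := fun p : G × G => p.1 + p.2) (t := A + B)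
      (fun p hp => by
        have := Finset.mem_product.1 (Finset.mem_coe.1 hp)
        exact Finset.mem_coe.2 (Finset.add_mem_add this.1 this.2))]
  refine Finset.sum_le_sum fun g _ => ?_
  have h2 : ((A ×ˢ B).filter (fun p : G × G => p.1 + p.2 = g)).card =
      rep (A : Set G) (B : Set G) g := by
    rw [rep, ← Set.ncard_coe_finset]
    congr 1
    ext p
    simp [and_assoc]
  rw [h2, ← Finset.card_filter]
  calc _ ≤ (Finset.Icc 1 (rep (A : Set G) (B : Set G) g)).card := by
        refine Finset.card_le_card fun i hi => ?_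
        rw [Finset.mem_filter, Finset.mem_Icc] at hi
        exact Finset.mem_Icc.2 ⟨hi.1.1, hi.2⟩
    _ = _ := by simp

/-- A finite set with stabilizer H of order at least 2 whose difference set has another
stabilizer refutes the conjecture. -/
lemma fail (A : Set G) (hA : A.Finite) (H : AddSubgroup G) (hH : stab A = H) (s : ℕ)
    (h2 : 2 ≤ (H : Set G).ncard) (hs : A.ncard = (s + 1) * (H : Set G).ncard)
    (hne : stab (A + -A) ≠ H) : ¬ Conjecture G := by
  intro hQ
  set h := (H : Set G).ncard with hh
  have fH : (H : Set G).Finite := Set.finite_of_ncard_ne_zero (by omega)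
  have hper : ∀ e ∈ H, ∀ x, x + e ∈ A ↔ x ∈ A := fun e he =>
    mem_stab.1 (by rw [hH]; exact he)
  have r1 : ∀ g ∈ H, rep A (-A) g = A.ncard := by
    intro g hg
    rw [rep_eq]
    congr 1
    ext a
    simp only [Set.mem_ofPred_eq, Set.mem_neg, neg_sub, and_iff_left_iff_imp]
    intro ha
    rw [sub_eq_add_neg, hper _ (H.neg_mem hg)]
    exact ha
  have r2 : ∀ g, g ∉ H → rep A (-A) g ≤ s * h := by
    intro g hg
    obtain ⟨a, ha, hag⟩ : ∃ a ∈ A, a - g ∉ A := by
      by_contra hcon
      push Not at hcon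
      have e1 : (fun x => -g + x) '' A = A := by
        refine Set.eq_of_subset_of_ncard_le ?_ ?_ hA
        · rintro _ ⟨a, ha, rfl⟩
          have := hcon a ha
          rwa [sub_eq_neg_add] at this
        · rw [Set.ncard_image_of_injective _ (add_right_injective _)]
      have e2 : -g ∈ stab A := e1
      rw [hH] at e2
      exact hg (by simpa using e2)
    have c1 : (fun x => a + x) '' (H : Set G) ⊆ A := by
      rintro _ ⟨e, he, rfl⟩
      exact (hper e he a).2 ha
    have c2 : {x | x ∈ A ∧ g - x ∈ -A} ⊆ A \ (fun x => a + x) '' (H : Set G) := by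
      rintro x ⟨hx, hx'⟩
      refine ⟨hx, ?_⟩
      rintro ⟨e, he, rfl⟩
      apply hag
      rw [← hper e he]
      have : -(g - (a + e)) ∈ A := hx'
      convert this using 1
      abel
    have c3 := Set.ncard_le_ncard c2 (hA.subset Set.sdiff_subset)
    rw [Set.ncard_sdiff c1 (fH.image _), Set.ncard_image_of_injective _ (add_right_injective _),
      hs, ← hh] at c3
    rw [rep_eq]
    have : (s + 1) * h - h = s * h := by
      rw [add_mul, one_mul, Nat.add_sub_cancel]
    omega
  have p1 : ∀ i, s * h < i → i ≤ (s + 1) * h → popSum A (-A) i = H := by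
    intro i i1 i2
    ext g
    change i ≤ rep A (-A) g ↔ g ∈ H
    constructor
    · intro hi
      by_contra hg
      have := r2 g hg
      omega
    · intro hg
      rw [r1 g hg, hs]
      exact i2
  have e1 : (s + 1) * h = s * h + h := by ring
  have hst : stab (popSum A (-A) (s * h + 1)) = H := by
    rw [p1 _ (by omega) (by omega), stab_subgroup]
  have hneg : (-A).ncard = A.ncard := Set.ncard_neg A
  have hsum : ∑ i ∈ Finset.Icc 1 (s * h + 1), (popSum A (-A) i).ncard + (h - 1) * h ≤
      A.ncard * A.ncard := by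
    have s1 := sum_le A (-A) hA hA.neg ((s + 1) * h)
    rw [hneg] at s1
    have s2 : Finset.Icc 1 ((s + 1) * h) =
        Finset.Icc 1 (s * h + 1) ∪ Finset.Icc (s * h + 2) ((s + 1) * h) := by
      ext i
      simp only [Finset.mem_union, Finset.mem_Icc]
      omega
    rw [s2, Finset.sum_union (by
      rw [Finset.disjoint_left]
      intro i i1 i2
      rw [Finset.mem_Icc] at i1 i2
      omega)] at s1
    have s3 : ∑ i ∈ Finset.Icc (s * h + 2) ((s + 1) * h), (popSum A (-A) i).ncard =
        (h - 1) * h := by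
      rw [Finset.sum_congr rfl (g := fun _ => h) (fun i hi => by
        rw [Finset.mem_Icc] at hi
        rw [p1 i (by omega) hi.2])]
      rw [Finset.sum_const, Nat.card_Icc, smul_eq_mul]
      congr 1
      omega
    omega
  obtain ⟨⟨A', B', a1, a2, a3, -, a4, a5⟩, -⟩ := hQ (s * h + 1) A (-A) (by omega) hA hA.neg
    (by omega) (by omega) (by
      obtain ⟨k, hk⟩ : ∃ k, h = k + 2 := ⟨h - 2, by omega⟩
      have k1 : h - 1 = k + 1 := by omega
      rw [k1, hs] at hsum
      rw [hneg, hs, ← Nat.cast_sum]
      have k2 : ((∑ i ∈ Finset.Icc 1 (s * h + 1), (popSum A (-A) i).ncard : ℕ) : ℤ) +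
          (k + 1) * h ≤ (s + 1) * h * ((s + 1) * h) := by exact_mod_cast hsum
      have k3 : (h : ℤ) = k + 2 := by exact_mod_cast hk
      have k4 : (0 : ℤ) ≤ k := by positivity
      push_cast at k2 ⊢
      rw [k3] at k2 ⊢
      nlinarith)
    H s 1 hst.symm rfl le_rfl (by omega)
  have key : ∀ X X' : Set G, X.Finite → X' ⊆ X → (X \ X').ncard = 0 → X' = X := by
    intro X X' fX hX h0
    rw [Set.ncard_eq_zero (fX.subset Set.sdiff_subset), Set.sdiff_eq_empty] at h0
    exact Set.Subset.antisymm hX h0
  rw [key A A' hA a1 (by omega), key (-A) B' hA.neg a2 (by omega)] at a4 a5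
  exact hne (a4.trans a5)

/-- three finite subgroups in a chain -/
lemma fail_chain (H K : AddSubgroup G) (fK : (K : Set G).Finite) (hHK : H < K)
    (h2 : 2 ≤ (H : Set G).ncard) (hK : K ≠ ⊤) : ¬ Conjecture G := by
  obtain ⟨g, hg⟩ : ∃ g, g ∉ K := by
    by_contra hcon
    push Not at hcon
    exact hK ((AddSubgroup.eq_top_iff' K).2 hcon)
  obtain ⟨k, hk, hkH⟩ := SetLike.exists_of_lt hHK
  have hle : ∀ x ∈ H, x ∈ K := fun x hx => hHK.le hx
  have fH : (H : Set G).Finite := fK.subset hHK.le
  obtain ⟨s, hs⟩ : (H : Set G).ncard ∣ (K : Set G).ncard := by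
    have := AddSubgroup.card_dvd_of_le hHK.le
    rwa [card_sub, card_sub] at this
  set A : Set G := (K : Set G) ∪ (fun x => g + x) '' (H : Set G) with hA
  have mA : ∀ x, x ∈ A ↔ x ∈ K ∨ x - g ∈ H := by
    intro x
    refine or_congr Iff.rfl ⟨?_, fun hx => ⟨x - g, hx, by simp⟩⟩
    rintro ⟨e, he, rfl⟩
    simpa using he
  have per : ∀ e ∈ K, ∀ x ∈ A + -A, x + e ∈ A + -A := by
    rintro e he _ ⟨a, ha, b, hb, rfl⟩
    have hb' : -b ∈ A := hb
    by_cases h1 : a ∈ K
    · exact ⟨a + e, (mA _).2 (Or.inl (K.add_mem h1 he)), b, hb, by simp only; abel⟩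
    by_cases h3 : -b ∈ K
    · refine ⟨a, ha, b + e, ?_, by simp only; abel⟩
      change -(b + e) ∈ A
      rw [neg_add]
      exact (mA _).2 (Or.inl (K.add_mem h3 (K.neg_mem he)))
    have h4 := hle _ (((mA _).1 ha).resolve_left h1)
    have h5 := hle _ (((mA _).1 hb').resolve_left h3)
    refine ⟨a + b + e, (mA _).2 (Or.inl (K.add_mem ?_ he)), 0, ?_, by simp⟩
    · convert K.sub_mem h4 h5 using 1
      abel
    · change -(0 : G) ∈ A
      exact (mA _).2 (Or.inl (by simp))
  refine fail A (fK.union (fH.image _)) H ?_ s h2 ?_ ?_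
  · ext e
    rw [mem_stab]
    constructor
    · intro he
      by_cases h1 : e ∈ K
      · rcases (mA _).1 ((he g).2 ((mA _).2 (Or.inr (by simp)))) with h3 | h3
        · exact absurd ((K.add_mem_cancel_right h1).1 h3) hg
        · simpa using h3
      · exfalso
        have h3 := ((mA _).1 ((he 0).2 ((mA _).2 (Or.inl K.zero_mem)))).resolve_left
          (by simpa using h1)
        have h4 := ((mA _).1 ((he k).2 ((mA _).2 (Or.inl hk)))).resolve_left
          (fun h => h1 ((K.add_mem_cancel_left hk).1 h))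
        apply hkH
        convert H.sub_mem h4 h3 using 1
        abel
    · intro he x
      rw [mA, mA, K.add_mem_cancel_right (hle e he), add_sub_right_comm,
        H.add_mem_cancel_right he]
  · rw [hA, Set.ncard_union_eq _ fK (fH.image _),
      Set.ncard_image_of_injective _ (add_right_injective _), hs]
    · ring
    · rw [Set.disjoint_left]
      rintro _ hx ⟨e, he, rfl⟩
      exact hg ((K.add_mem_cancel_right (hle e he)).1 hx)
  · intro hcon
    apply hkH
    have : k ∈ stab (A + -A) := by
      rw [mem_stab]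
      intro x
      refine ⟨fun hx => ?_, per k hk x⟩
      simpa using per (-k) (K.neg_mem hk) _ hx
    rwa [hcon] at this

/-- a subgroup of index at least 3 in a finite group -/
lemma fail_index [Finite G] (H : AddSubgroup G) (h2 : 2 ≤ (H : Set G).ncard) (s : ℕ)
    (hs : Nat.card G = (s + 3) * (H : Set G).ncard) : ¬ Conjecture G := by
  have hc : ((H : Set G)ᶜ).ncard = (s + 1 + 1) * (H : Set G).ncard := by
    have := Set.ncard_add_ncard_compl (H : Set G)
    rw [hs] at this
    have e : (s + 3) * (H : Set G).ncard =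
        (H : Set G).ncard + (s + 1 + 1) * (H : Set G).ncard := by ring
    omega
  refine fail (H : Set G)ᶜ (Set.toFinite _) H ?_ (s + 1) h2 hc ?_
  · ext e
    have h0 : e ∈ (H : Set G) ↔ e ∈ stab (H : Set G) := by rw [stab_subgroup]
    rw [h0, mem_stab, mem_stab]
    exact forall_congr' fun x => not_iff_not
  · have hu : (H : Set G)ᶜ + -(H : Set G)ᶜ = Set.univ := by
      refine Set.eq_univ_of_forall fun x => ?_
      obtain ⟨a, ha, hax⟩ : ∃ a ∈ (H : Set G)ᶜ, a ∉ (fun y => x + y) '' (H : Set G) := by
        refine Set.exists_mem_notMem_of_ncard_lt_ncard ?_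
        rw [Set.ncard_image_of_injective _ (add_right_injective _), hc]
        nlinarith
      refine ⟨a, ha, x - a, ?_, by simp⟩
      intro hcon
      exact hax ⟨-(x - a), hcon, by simp⟩
    rw [hu, stab_univ]
    intro hcon
    rw [← hcon, Set.compl_univ, Set.ncard_empty, hcon] at hc
    nlinarith

lemma two_le_ncard (H : AddSubgroup G) (fH : (H : Set G).Finite) (h : H ≠ ⊥) :
    2 ≤ (H : Set G).ncard := by
  obtain ⟨x, hx, hx0⟩ := (H.bot_or_exists_ne_zero).resolve_left h
  exact (Set.one_lt_ncard fH).2 ⟨x, hx, 0, H.zero_mem, hx0⟩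

lemma fail_of_lt (H K : AddSubgroup G) (fK : (K : Set G).Finite) (hHK : H < K) (hH : H ≠ ⊥)
    (h4 : Nat.card G ≠ 4) : ¬ Conjecture G := by
  have h2 := two_le_ncard H (fK.subset hHK.le) hH
  by_cases hK : K = ⊤
  swap
  · exact fail_chain H K fK hHK h2 hK
  subst hK
  have : Finite G := Set.finite_univ_iff.1 (by simpa using fK)
  have hc : H.index * (H : Set G).ncard = Nat.card G := by
    rw [← card_sub]
    exact H.index_mul_card
  have i0 : H.index ≠ 0 := AddSubgroup.index_ne_zero_of_finite
  have i1 : H.index ≠ 1 := fun h => hHK.ne (AddSubgroup.index_eq_one.1 h)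
  by_cases i2 : H.index = 2
  · rw [i2] at hc
    have : Fact (Nat.Prime 2) := ⟨Nat.prime_two⟩
    obtain ⟨x, hx⟩ := exists_prime_addOrderOf_dvd_card' (G := G) 2 ⟨_, hc.symm⟩
    have hx2 : ((AddSubgroup.zmultiples x : AddSubgroup G) : Set G).ncard = 2 := by
      rw [← card_sub, ← hx]
      exact Nat.card_zmultiples x
    refine fail_index (AddSubgroup.zmultiples x) hx2.ge ((H : Set G).ncard - 3) ?_
    rw [hx2]
    omega
  · refine fail_index H h2 (H.index - 3) ?_
    rw [← hc]
    congr 1
    omega

lemma exists_lt (h1 : Nat.card (AddCommGroup.torsion G) ≠ 1)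
    (hp : ¬ (Nat.card (AddCommGroup.torsion G)).Prime) :
    ∃ H K : AddSubgroup G, (K : Set G).Finite ∧ H < K ∧ H ≠ ⊥ := by
  have hT : AddCommGroup.torsion G ≠ ⊥ := by
    intro h
    rw [h] at h1
    exact h1 AddSubgroup.card_bot
  obtain ⟨x, hx, hx0⟩ := ((AddCommGroup.torsion G).bot_or_exists_ne_zero).resolve_left hT
  have fin : ∀ y ∈ AddCommGroup.torsion G,
      ((AddSubgroup.zmultiples y : AddSubgroup G) : Set G).Finite := fun y hy =>
    IsOfFinAddOrder.finite_zmultiples hy
  have hxb : AddSubgroup.zmultiples x ≠ ⊥ := by simpa using hx0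
  by_cases hall : ∀ y ∈ AddCommGroup.torsion G, y ∈ AddSubgroup.zmultiples x
  · have hTx : AddCommGroup.torsion G = AddSubgroup.zmultiples x :=
      le_antisymm hall ((AddSubgroup.zmultiples_le).2 hx)
    have fT : Finite (AddCommGroup.torsion G) := by
      rw [hTx]
      exact (fin x hx).to_subtype
    have : Fact (Nat.card (AddCommGroup.torsion G)).minFac.Prime := ⟨Nat.minFac_prime h1⟩
    obtain ⟨y, hy⟩ := exists_prime_addOrderOf_dvd_card' (G := AddCommGroup.torsion G) _
      (Nat.minFac_dvd _)
    have hy' : addOrderOf (y : G) = (Nat.card (AddCommGroup.torsion G)).minFac := by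
      rw [← hy]
      exact AddSubgroup.addOrderOf_coe y
    refine ⟨AddSubgroup.zmultiples (y : G), AddCommGroup.torsion G, Set.toFinite _,
      lt_of_le_of_ne ((AddSubgroup.zmultiples_le).2 y.2) fun h => hp ?_, fun h => ?_⟩
    · have e := Nat.card_zmultiples (y : G)
      rw [h, hy'] at e
      rw [e]
      exact this.out
    · have e := Nat.card_zmultiples (y : G)
      rw [h, hy', AddSubgroup.card_bot] at e
      exact this.out.ne_one e.symm
  · push Not at hall
    obtain ⟨y, hy, hyx⟩ := hall
    refine ⟨AddSubgroup.zmultiples x, AddSubgroup.zmultiples x ⊔ AddSubgroup.zmultiples y, ?_,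
      lt_of_le_of_ne le_sup_left fun h => hyx ?_, hxb⟩
    · rw [AddSubgroup.add_normal]
      exact (fin x hx).add (fin y hy)
    · rw [h]
      exact AddSubgroup.mem_sup_right (AddSubgroup.mem_zmultiples y)

lemma eq_torsion (hT : Nat.card (AddCommGroup.torsion G) = 1 ∨
    (Nat.card (AddCommGroup.torsion G)).Prime) (H : AddSubgroup G) (fH : (H : Set G).Finite)
    (h2 : 2 ≤ (H : Set G).ncard) : H = AddCommGroup.torsion G := by
  have : Finite H := fH.to_subtype
  have hle : H ≤ AddCommGroup.torsion G := by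
    intro x hx
    have := isOfFinAddOrder_of_finite (⟨x, hx⟩ : H)
    exact (H.subtype.isOfFinAddOrder this : IsOfFinAddOrder x)
  have hd := AddSubgroup.card_dvd_of_le hle
  have hc : Nat.card H = (H : Set G).ncard := card_sub H
  rcases hT with hT | hT
  · rw [hT, Nat.dvd_one] at hd
    omega
  · have : Finite (AddCommGroup.torsion G) := Nat.finite_of_card_ne_zero hT.ne_zero
    refine AddSubgroup.eq_of_le_of_card_ge hle ?_
    rcases (Nat.dvd_prime hT).1 hd with h | h
    · omega
    · exact h.ge

lemma holds (hG : Nat.card (AddCommGroup.torsion G) = 1 ∨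
    (Nat.card (AddCommGroup.torsion G)).Prime ∨ Nat.card G = 4) : Conjecture G := by
  intro t A B ht hA hB htA htB hsum H s u hH h1 h2 h3
  obtain ⟨fH, hall⟩ := KneserPollard.result G A B t H hA hB ht htA htB hsum hH
  obtain ⟨⟨A', B', a1, a2, c1, c2, c3, c4, c5, -, c6, -, -⟩, hb, -⟩ := hall s u h1 h2 h3
  have c2' : A' + B' = popSum A' B' u := c2
  have c3' : popSum A' B' u = popSum A B u := c3
  have c4' : H ⊆ stab (A' + B') := c4
  have c5' : s = 0 → stab (A' + B') = H := c5
  refine ⟨⟨A', B', a1, a2, c1, ⟨c2', c3'⟩, by rw [← c2'], ?_⟩, hb⟩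
  rw [← c2']
  have H0 : (0 : G) ∈ H := by rw [hH, mem_stab]; simp
  have hh : ∀ X : Set G, X.Finite → X.ncard ≤ (X + H).ncard := fun X hX =>
    Set.ncard_le_ncard (fun x hx => ⟨x, hx, 0, H0, by simp⟩) (hX.add fH)
  have p1 := hh A' (hA.subset a1)
  have p2 := hh B' (hB.subset a2)
  unfold KneserPollard.holes at c6
  have ne : ∀ X X' : Set G, t ≤ X.ncard → (X \ X').ncard < u → X'.Nonempty := by
    intro X X' e1 e2
    rw [Set.nonempty_iff_ne_empty]
    rintro rfl
    rw [Set.sdiff_empty] at e2
    omega
  have nAB : (A' + B').Nonempty := (ne A A' htA (by omega)).add (ne B B' htB (by omega))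
  have fAB : (A' + B').Finite := (hA.subset a1).add (hB.subset a2)
  have fS : (stab (A' + B')).Finite := (fAB.sub fAB).subset (stab_subset nAB)
  have hHS : (stabSub (popSum A B t) : Set G) = H := hH.symm
  rw [← or_assoc] at hG
  rcases hG with hT | h4
  · have e1 := eq_torsion hT (stabSub (popSum A B t)) (by rw [hHS]; exact fH)
      (by rw [hHS]; omega)
    have e2 := eq_torsion hT (stabSub (A' + B')) fS
      (by have := Set.ncard_le_ncard c4' fS; rw [coe_stabSub]; omega)
    rw [← hHS, e1, ← e2, coe_stabSub]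
  · by_contra hne
    have : Finite G := Nat.finite_of_card_ne_zero (by omega)
    have hs : 1 ≤ s := by
      by_contra h0
      exact hne (c5' (by omega))
    have l1 : H.ncard < 4 := by
      have q1 := Set.ncard_lt_ncard (c4'.ssubset_of_ne (Ne.symm hne)) fS
      have q2 := Set.ncard_le_card (stab (A' + B'))
      omega
    have l2 : H.ncard ∣ 4 := by
      have := (stabSub (popSum A B t)).card_addSubgroup_dvd_card
      rwa [h4, card_sub, hHS] at this
    have l3 : H.ncard = 2 := by
      have : H.ncard ≠ 3 := by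
        intro h
        rw [h] at l2
        omega
      omega
    have hu : u = 1 := by omega
    have eA : A' = A := by
      have h0 : (A \ A').ncard = 0 := by omega
      rw [Set.ncard_eq_zero (Set.toFinite _), Set.sdiff_eq_empty] at h0
      exact Set.Subset.antisymm a1 h0
    subst eA
    have eH : A' = A' + H := Set.eq_of_subset_of_ncard_le
      (fun x hx => ⟨x, hx, 0, H0, by simp⟩) (by omega)
    have eU : A' = Set.univ := by
      by_contra hcon
      obtain ⟨x, hx⟩ := (Set.ne_univ_iff_exists_notMem _).1 hcon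
      have q1 : (fun y => x + y) '' H ⊆ A'ᶜ := by
        rintro _ ⟨e, he, rfl⟩ hxe
        apply hx
        rw [eH]
        refine ⟨x + e, hxe, -e, ?_, by simp⟩
        rw [← hHS] at he ⊢
        exact (stabSub (popSum A' B t)).neg_mem he
      have q2 := Set.ncard_le_ncard q1
      rw [Set.ncard_image_of_injective _ (add_right_injective _)] at q2
      have q3 := Set.ncard_add_ncard_compl A'
      rw [l3] at h1
      omega
    have eP : popSum A' B t = Set.univ := by
      refine Set.eq_univ_of_forall fun g => ?_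
      change t ≤ rep A' B g
      rw [rep_eq, eU]
      have q : {a | a ∈ (Set.univ : Set G) ∧ g - a ∈ B} = (fun b => g - b) '' B := by
        ext a
        constructor
        · exact fun h => ⟨g - a, h.2, by simp⟩
        · rintro ⟨b, hb, rfl⟩
          exact ⟨trivial, by simpa using hb⟩
      rw [q, Set.ncard_image_of_injective _ sub_right_injective]
      exact htB
    rw [eP, stab_univ] at hH
    rw [hH, Set.ncard_univ] at l3
    omega

end General

/-- The abelian groups in which the conjecture holds. -/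
theorem result (G : Type u) [AddCommGroup G] :
    Conjecture G ↔
      (Nat.card (AddCommGroup.torsion G) = 1 ∨ (Nat.card (AddCommGroup.torsion G)).Prime ∨
        Nat.card G = 4) := by
  refine ⟨fun hQ => ?_, holds⟩
  by_contra hcon
  push Not at hcon
  obtain ⟨H, K, fK, hHK, hH⟩ := exists_lt hcon.1 hcon.2.1
  exact fail_of_lt H K fK hHK hH hcon.2.2 hQ

end Pool.Agent.Results.MP_cd64ef_nt.GroupsClassified
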