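import Pool.Agent.Lib.MP_cd64ef_nt.Final

set_option autoImplicit false

open scoped Pointwise

namespace Pool.Agent.Results.MP_cd64ef_nt.KneserPollard

open Pool.Agent.Lib.MP_cd64ef_nt

universe u

/-- The number of pairs (a, b) in A × B with a + b = g. -/
noncomputable def rep {G : Type u} [AddCommGroup G] (A B : Set G) (g : G) : ℕ :=
  Set.ncard {p : G × G | p.1 ∈ A ∧ p.2 ∈ B ∧ p.1 + p.2 = g}

/-- The t-popular sumset of A and B. -/
def popSum {G : Type u} [AddCommGroup G] (A B : Set G) (t : ℕ) : Set G :=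
  {g | t ≤ rep A B g}

/-- The stabilizer of X: all e with e + X = X. -/
def stab {G : Type u} [AddCommGroup G] (X : Set G) : Set G :=
  {e | (fun x => e + x) '' X = X}

/-- The number of H-holes of X, that is |X + H| - |X|. -/
noncomputable def holes {G : Type u} [AddCommGroup G] (X H : Set G) : ℤ :=
  ((X + H).ncard : ℤ) - X.ncard

section General
variable {G : Type u} [AddCommGroup G]

lemma mem_stab {X : Set G} {e : G} : e ∈ stab X ↔ ∀ x, x + e ∈ X ↔ x ∈ X := by
  constructor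
  · intro he x
    have he' : (fun x => e + x) '' X = X := he
    constructor
    · intro hx
      rw [← he'] at hx
      obtain ⟨y, hy, hxy⟩ := hx
      have : y = x := by
        have h2 : e + y = x + e := hxy
        rw [add_comm x e] at h2
        exact add_left_cancel h2
      rwa [← this]
    · intro hx
      rw [← he']
      exact ⟨x, hx, add_comm _ _⟩
  · intro h
    ext x
    constructor
    · rintro ⟨y, hy, rfl⟩
      have := (h y).2 hy
      rwa [add_comm] at this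
    · intro hx
      exact ⟨x - e, (h _).1 (by simpa using hx), by simp⟩

lemma popSum_subset (A B : Set G) {i : ℕ} (hi : 1 ≤ i) : popSum A B i ⊆ A + B := by
  intro g hg
  have h1 : i ≤ rep A B g := hg
  obtain ⟨p, h2, h3, h4⟩ := Set.nonempty_of_ncard_ne_zero
    (show rep A B g ≠ 0 by omega)
  exact ⟨p.1, h2, p.2, h3, h4⟩

lemma stab_subset {X : Set G} (hX : X.Nonempty) : stab X ⊆ X - X := by
  obtain ⟨x, hx⟩ := hX
  intro e he
  exact ⟨x + e, (mem_stab.1 he x).2 hx, x, hx, by simp⟩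

/-- the conclusion for one pair (A', B') -/
def Concl (A B A' B' : Set G) (t s u : ℕ) : Prop :=
  (A \ A').ncard + (B \ B').ncard < u ∧
  A' + B' = popSum A' B' u ∧ popSum A' B' u = popSum A B u ∧
  stab (popSum A B t) ⊆ stab (A' + B') ∧ popSum A' B' t = popSum A B t ∧
  u + (holes A' (stab (popSum A B t)) + holes B' (stab (popSum A B t))) <
    (stab (popSum A B t)).ncard ∧
  (popSum A B t).ncard + (2 * s + 1) * (stab (popSum A B t)).ncard =
    (A' + stab (popSum A B t)).ncard + (B' + stab (popSum A B t)).ncard ∧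
  (t : ℤ) * A.ncard + t * B.ncard - t ^ 2 -
    ((u : ℤ) - ((A \ A').ncard + (B \ B').ncard)) * ((stab (popSum A B t)).ncard - u -
      (holes A' (stab (popSum A B t)) + holes B' (stab (popSum A B t)))) ≤
    ∑ i ∈ Finset.Icc 1 t, ((popSum A B i).ncard : ℤ)

/-- the statement for one pair (A, B) -/
def Stmt (A B : Set G) (t : ℕ) : Prop :=
  t ≤ A.ncard → t ≤ B.ncard →
  (∑ i ∈ Finset.Icc 1 t, ((popSum A B i).ncard : ℤ)) < t * A.ncard + t * B.ncard - t ^ 2 →
  (popSum A B t).Nonempty ∧ ∀ s u : ℕ, t = s * (stab (popSum A B t)).ncard + u → 1 ≤ u →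
    u ≤ (stab (popSum A B t)).ncard → ∃ A' B', A' ⊆ A ∧ B' ⊆ B ∧ Concl A B A' B' t s u

end General

section Fin
variable {G : Type u} [AddCommGroup G] [Fintype G]

lemma rep_eq (A B : Set G) (g : G) : (rep A B g : ℤ) = rr A B (-g) := by
  have h1 : {p : G × G | p.1 ∈ A ∧ p.2 ∈ B ∧ p.1 + p.2 = g} =
      (fun v => (v, g - v)) '' (A ∩ {v | g - v ∈ B}) := by
    ext ⟨a, b⟩
    constructor
    · rintro ⟨ha, hb, rfl⟩
      exact ⟨a, ⟨ha, by simpa using hb⟩, by simp⟩
    · rintro ⟨v, ⟨h1, h2⟩, h3⟩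
      obtain ⟨rfl, rfl⟩ := Prod.mk.inj h3
      exact ⟨h1, h2, by simp⟩
  rw [rep, h1, Set.ncard_image_of_injective _ (fun a b hab => (Prod.mk.inj hab).1),
    ← sz_eq_ncard]
  simp only [sz, rr, ind_inter, neg_neg]
  rfl

lemma mem_popSum (A B : Set G) (i : ℕ) (g : G) : g ∈ popSum A B i ↔ (i : ℤ) ≤ rr A B (-g) := by
  rw [← rep_eq]
  exact Nat.cast_le.symm

lemma sum_popSum (A B : Set G) (t : ℕ) :
    ∑ i ∈ Finset.Icc 1 t, ((popSum A B i).ncard : ℤ) = ∑ g, min (rr A B g) t := by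
  induction t with
  | zero => simp [rr_nonneg]
  | succ n ih =>
    rw [Finset.sum_Icc_succ_top (by omega), ih, ← sz_eq_ncard, sz,
      ← sum_refl 0 (ind (popSum A B (n + 1))), ← Finset.sum_add_distrib]
    refine Finset.sum_congr rfl fun g _ => ?_
    by_cases h : ((n + 1 : ℕ) : ℤ) ≤ rr A B g
    · rw [ind_of_mem ((mem_popSum _ _ _ _).2 (by simpa using h))]
      push_cast at h ⊢
      omega
    · rw [ind_of_not (fun h' => h (by simpa using (mem_popSum _ _ _ _).1 h'))]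
      push_cast at h ⊢
      omega

lemma Phi_thr (A B : Set G) (t : ℤ) :
    Phi A B {g | rr A B g < t} t = t * sz A + t * sz B - t ^ 2 - ∑ g, min (rr A B g) t := by
  rw [Phi_eq_sum]
  have : ∑ g, ind {g | rr A B g < t} g * (t - rr A B g) =
      ∑ g, (t - min (rr A B g) t) := by
    refine Finset.sum_congr rfl fun g _ => ?_
    by_cases h : rr A B g < t
    · rw [ind_of_mem (X := {g | rr A B g < t}) h]; omega
    · rw [ind_of_not (X := {g | rr A B g < t}) h]; omega
  rw [this, Finset.sum_sub_distrib]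
  simp only [Finset.sum_const, Finset.card_univ, nsmul_eq_mul]
  ring

lemma stmt_finite (A B : Set G) (t : ℕ) : Stmt A B t := by
  intro hA hB hsum
  rw [sum_popSum, ← sz_eq_ncard, ← sz_eq_ncard] at hsum
  have hA' : (t : ℤ) ≤ sz A := by rw [sz_eq_ncard]; exact_mod_cast hA
  have hB' : (t : ℤ) ≤ sz B := by rw [sz_eq_ncard]; exact_mod_cast hB
  have hpos : 0 < Phi A B {g | rr A B g < t} t := by rw [Phi_thr]; linarith
  set C : Set G := {g | rr A B g < t} with hC
  have hX : ∀ g, g ∈ popSum A B t ↔ -g ∉ C := by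
    intro g; rw [mem_popSum]; simp [hC]
  have hH : stab (popSum A B t) = (stabS C : Set G) := by
    ext e
    rw [mem_stab, SetLike.mem_coe, ← (stabS C).neg_mem_iff, mem_stabS]
    constructor
    · intro h x
      have := h (-x)
      rw [hX, hX, neg_neg, neg_add, neg_neg] at this
      exact not_iff_not.1 this
    · intro h x
      rw [hX, hX, neg_add, h]
  have hsz : sz (popSum A B t) = sz Cᶜ := by
    rw [← sum_ind_refl Cᶜ 0]
    exact Finset.sum_congr rfl fun g _ => ind_congr (by simpa using hX g)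
  constructor
  · by_contra hne
    have hu : C = Set.univ := Set.eq_univ_of_forall fun g => by
      by_contra hg
      exact hne ⟨-g, (hX _).2 (by simpa using hg)⟩
    rw [hu, Phi_swap23, Phi, sz_univ] at hpos
    have : TT A Set.univ B = sz B * sz A := by
      simp only [TT, rr_univ, sz, Finset.sum_mul]
    rw [this] at hpos
    have := mul_nonneg (sub_nonneg.2 hA') (sub_nonneg.2 hB')
    linarith
  intro s u ht hu1 hu2
  rw [hH] at ht hu2
  obtain ⟨A1, B1, c1, c2, c3, c4, c5, c6, c7, c8, c9, c10⟩ := finite_struct A B C t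
    (fun g => Iff.rfl) hpos s u (by rw [sz_eq_ncard]; exact_mod_cast ht) (by exact_mod_cast hu1)
    (by rw [sz_eq_ncard]; exact_mod_cast hu2)
  have hadd : ∀ g, g ∈ A1 + B1 ↔ 1 ≤ rr A1 B1 (-g) := by
    intro g
    constructor
    · rintro ⟨a, ha, b, hb, rfl⟩
      rw [← rep_eq]
      have : 0 < rep A1 B1 (a + b) :=
        (Set.ncard_pos (Set.toFinite _)).2 ⟨(a, b), ha, hb, rfl⟩
      exact_mod_cast this
    · intro h
      exact popSum_subset A1 B1 le_rfl ((mem_popSum _ _ _ _).2 (by simpa using h))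
  refine ⟨A1, B1, c1, c2, ?_, ?_, ?_, ?_, ?_, ?_, ?_, ?_⟩
  · rw [sz_eq_ncard, sz_eq_ncard] at c3; exact_mod_cast c3
  · ext g; rw [hadd, mem_popSum, c4]
  · ext g; rw [mem_popSum, mem_popSum, c5]
  · rw [hH]
    intro e he
    rw [mem_stab]
    intro x
    rw [hadd, hadd, neg_add, c7 _ ((stabS C).neg_mem he)]
  · ext g; rw [mem_popSum, mem_popSum, c6]
  · rw [hH]; simpa only [holes, sz_eq_ncard] using c8
  · rw [hH]
    rw [← hsz] at c9
    simp only [sz_eq_ncard] at c9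
    exact_mod_cast c9
  · rw [hH, sum_popSum]
    rw [hC, Phi_thr, ← hC] at c10
    simp only [holes, ← sz_eq_ncard]
    linarith

end Fin

section Transfer
variable {G G' : Type u} [AddCommGroup G] [AddCommGroup G'] {φ : G →+ G'} {W : Set G}

lemma sub_W (h0 : (0 : G) ∈ W) : W ⊆ W + (W - W) :=
  fun x hx => ⟨x, hx, 0, ⟨0, h0, 0, h0, by simp⟩, by simp⟩

lemma sub_WW (h0 : (0 : G) ∈ W) : W - W ⊆ W + (W - W) :=
  fun x hx => ⟨0, h0, x, hx, by simp⟩

lemma rep_image (hW : Set.InjOn φ W) {A B : Set G} (hA : A ⊆ W) (hB : B ⊆ W) (hAB : A + B ⊆ W)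
    {g : G} (hg : g ∈ W) : rep (φ '' A) (φ '' B) (φ g) = rep A B g := by
  have h1 : {p : G' × G' | p.1 ∈ φ '' A ∧ p.2 ∈ φ '' B ∧ p.1 + p.2 = φ g} =
      Prod.map φ φ '' {p : G × G | p.1 ∈ A ∧ p.2 ∈ B ∧ p.1 + p.2 = g} := by
    ext ⟨a', b'⟩
    constructor
    · rintro ⟨⟨a, ha, rfl⟩, ⟨b, hb, rfl⟩, h⟩
      refine ⟨(a, b), ⟨ha, hb, hW (hAB ⟨a, ha, b, hb, rfl⟩) hg ?_⟩, rfl⟩
      rw [map_add]; exact h
    · rintro ⟨⟨a, b⟩, ⟨ha, hb, rfl⟩, h⟩
      obtain ⟨rfl, rfl⟩ := Prod.mk.inj h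
      exact ⟨⟨a, ha, rfl⟩, ⟨b, hb, rfl⟩, by simp⟩
  rw [rep, h1, Set.InjOn.ncard_image]
  · rfl
  · rintro ⟨a, b⟩ ⟨ha, hb, -⟩ ⟨a', b'⟩ ⟨ha', hb', -⟩ h
    obtain ⟨h1, h2⟩ := Prod.mk.inj h
    exact Prod.ext (hW (hA ha) (hA ha') h1) (hW (hB hb) (hB hb') h2)

lemma popSum_image (hW : Set.InjOn φ W) {A B : Set G} (hA : A ⊆ W) (hB : B ⊆ W)
    (hAB : A + B ⊆ W) {i : ℕ} (hi : 1 ≤ i) :
    popSum (φ '' A) (φ '' B) i = φ '' popSum A B i := by
  ext g'
  constructor
  · intro hg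
    have h1 := popSum_subset _ _ hi hg
    rw [← Set.image_add] at h1
    obtain ⟨g, h2, rfl⟩ := h1
    refine ⟨g, ?_, rfl⟩
    have h3 : i ≤ rep (φ '' A) (φ '' B) (φ g) := hg
    rwa [rep_image hW hA hB hAB (hAB h2)] at h3
  · rintro ⟨g, hg, rfl⟩
    change i ≤ rep (φ '' A) (φ '' B) (φ g)
    rw [rep_image hW hA hB hAB (hAB (popSum_subset _ _ hi hg))]
    exact hg

lemma mem_stab_image (h0 : (0 : G) ∈ W) (hS : Set.InjOn φ (W + (W - W))) {Y : Set G}
    (hY : Y ⊆ W) {e : G} (he : e ∈ W - W) : φ e ∈ stab (φ '' Y) ↔ e ∈ stab Y := by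
  have h1 : (fun x => φ e + x) '' (φ '' Y) = φ '' ((fun x => e + x) '' Y) := by
    simp only [Set.image_image, map_add]
  change (fun x => φ e + x) '' (φ '' Y) = φ '' Y ↔ (fun x => e + x) '' Y = Y
  rw [h1]
  refine hS.image_eq_image_iff ?_ (hY.trans (sub_W h0))
  rintro _ ⟨y, hy, rfl⟩
  exact ⟨y, hY hy, e, he, add_comm _ _⟩

lemma stab_image (h0 : (0 : G) ∈ W) (hS : Set.InjOn φ (W + (W - W))) {X : Set G}
    (hX : X ⊆ W) (hne : X.Nonempty) : stab (φ '' X) = φ '' stab X := by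
  ext e'
  constructor
  · intro he
    have h1 := stab_subset (hne.image φ) he
    rw [← Set.image_sub] at h1
    obtain ⟨e, h2, rfl⟩ := h1
    exact ⟨e, (mem_stab_image h0 hS hX (Set.sub_subset_sub hX hX h2)).1 he, rfl⟩
  · rintro ⟨e, he, rfl⟩
    exact (mem_stab_image h0 hS hX (Set.sub_subset_sub hX hX (stab_subset hne he))).2 he

lemma sum_image (hW : Set.InjOn φ W) {A B : Set G} (hA : A ⊆ W) (hB : B ⊆ W)
    (hAB : A + B ⊆ W) (t : ℕ) :
    ∑ i ∈ Finset.Icc 1 t, ((popSum (φ '' A) (φ '' B) i).ncard : ℤ) =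
      ∑ i ∈ Finset.Icc 1 t, ((popSum A B i).ncard : ℤ) := by
  refine Finset.sum_congr rfl fun i hi => ?_
  have h1 := (Finset.mem_Icc.1 hi).1
  rw [popSum_image hW hA hB hAB h1,
    (hW.mono ((popSum_subset A B h1).trans hAB)).ncard_image]

lemma concl_image (h0 : (0 : G) ∈ W) (hS : Set.InjOn φ (W + (W - W))) {A B A' B' : Set G}
    (hA : A ⊆ W) (hB : B ⊆ W) (hAB : A + B ⊆ W) (hA' : A' ⊆ A) (hB' : B' ⊆ B) {t s u : ℕ}
    (ht : 1 ≤ t) (hu : 1 ≤ u) (hne : (popSum A B t).Nonempty) :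
    Concl (φ '' A) (φ '' B) (φ '' A') (φ '' B') t s u ↔ Concl A B A' B' t s u := by
  have hW : Set.InjOn φ W := hS.mono (sub_W h0)
  have hAB' : A' + B' ⊆ W := (Set.add_subset_add hA' hB').trans hAB
  have hX : popSum A B t ⊆ W := (popSum_subset A B ht).trans hAB
  have hH : stab (popSum A B t) ⊆ W - W := (stab_subset hne).trans (Set.sub_subset_sub hX hX)
  have nc : ∀ Y ⊆ W + (W - W), (φ '' Y).ncard = Y.ncard := fun Y hY => (hS.mono hY).ncard_image
  have ncW : ∀ Y ⊆ W, (φ '' Y).ncard = Y.ncard := fun Y hY => nc Y (hY.trans (sub_W h0))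
  have hst : φ '' stab (popSum A B t) ⊆ stab (φ '' (A' + B')) ↔
      stab (popSum A B t) ⊆ stab (A' + B') := by
    rw [Set.image_subset_iff]
    exact forall_congr' fun e => forall_congr' fun he => mem_stab_image h0 hS hAB' (hH he)
  unfold Concl holes
  rw [sum_image hW hA hB hAB, popSum_image hW hA hB hAB ht, popSum_image hW hA hB hAB hu,
    popSum_image hW (hA'.trans hA) (hB'.trans hB) hAB' ht,
    popSum_image hW (hA'.trans hA) (hB'.trans hB) hAB' hu, stab_image h0 hS hX hne,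
    ← Set.image_add, ← Set.image_add, ← Set.image_add,
    ← (hW.mono hA).image_sdiff_subset hA', ← (hW.mono hB).image_sdiff_subset hB', hst,
    hW.image_eq_image_iff hAB' ((popSum_subset _ _ hu).trans hAB'),
    hW.image_eq_image_iff ((popSum_subset _ _ hu).trans hAB') ((popSum_subset _ _ hu).trans hAB),
    hW.image_eq_image_iff ((popSum_subset _ _ ht).trans hAB') hX,
    ncW _ hA, ncW _ hB, ncW _ (hA'.trans hA), ncW _ (hB'.trans hB), ncW _ hX,
    ncW _ (Set.sdiff_subset.trans hA), ncW _ (Set.sdiff_subset.trans hB),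
    nc _ (hH.trans (sub_WW h0)), nc _ (Set.add_subset_add (hA'.trans hA) hH),
    nc _ (Set.add_subset_add (hB'.trans hB) hH)]

lemma stmt_image (h0 : (0 : G) ∈ W) (hS : Set.InjOn φ (W + (W - W))) {A B : Set G}
    (hA : A ⊆ W) (hB : B ⊆ W) (hAB : A + B ⊆ W) {t : ℕ} (ht : 1 ≤ t) :
    Stmt (φ '' A) (φ '' B) t ↔ Stmt A B t := by
  have hW : Set.InjOn φ W := hS.mono (sub_W h0)
  have hX : popSum A B t ⊆ W := (popSum_subset A B ht).trans hAB
  unfold Stmt
  rw [sum_image hW hA hB hAB, (hW.mono hA).ncard_image, (hW.mono hB).ncard_image,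
    popSum_image hW hA hB hAB ht, Set.image_nonempty]
  refine forall_congr' fun _ => forall_congr' fun _ => forall_congr' fun _ =>
    and_congr_right fun hne => ?_
  have hH : stab (popSum A B t) ⊆ W - W := (stab_subset hne).trans (Set.sub_subset_sub hX hX)
  rw [stab_image h0 hS hX hne, (hS.mono (hH.trans (sub_WW h0))).ncard_image]
  refine forall_congr' fun s => forall_congr' fun u => forall_congr' fun _ =>
    forall_congr' fun hu => forall_congr' fun _ => ?_
  constructor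
  · rintro ⟨A', B', h1, h2, h3⟩
    obtain ⟨A1, a1, rfl⟩ := Set.subset_image_iff.1 h1
    obtain ⟨B1, b1, rfl⟩ := Set.subset_image_iff.1 h2
    exact ⟨A1, B1, a1, b1, (concl_image h0 hS hA hB hAB a1 b1 ht hu hne).1 h3⟩
  · rintro ⟨A', B', h1, h2, h3⟩
    exact ⟨φ '' A', φ '' B', Set.image_mono h1, Set.image_mono h2,
      (concl_image h0 hS hA hB hAB h1 h2 ht hu hne).2 h3⟩

end Transfer

lemma stmt_all {G : Type u} [AddCommGroup G] (A B : Set G) (hA : A.Finite) (hB : B.Finite)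
    (t : ℕ) (ht : 1 ≤ t) : Stmt A B t := by
  have : Finite (A ∪ B : Set G) := (hA.union hB).to_subtype
  set K := AddSubgroup.closure (A ∪ B) with hK
  have hfg : AddGroup.FG K := AddGroup.closure_finite_fg (A ∪ B)
  have eA : K.subtype '' (K.subtype ⁻¹' A) = A :=
    Set.image_preimage_eq_of_subset fun a ha =>
      ⟨⟨a, AddSubgroup.subset_closure (Or.inl ha)⟩, rfl⟩
  have eB : K.subtype '' (K.subtype ⁻¹' B) = B :=
    Set.image_preimage_eq_of_subset fun a ha =>
      ⟨⟨a, AddSubgroup.subset_closure (Or.inr ha)⟩, rfl⟩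
  have fA : (K.subtype ⁻¹' A).Finite := hA.preimage K.subtype_injective.injOn
  have fB : (K.subtype ⁻¹' B).Finite := hB.preimage K.subtype_injective.injOn
  set A0 := K.subtype ⁻¹' A
  set B0 := K.subtype ⁻¹' B
  have fW : (insert 0 (A0 ∪ B0 ∪ (A0 + B0))).Finite := ((fA.union fB).union (fA.add fB)).insert 0
  set W := insert 0 (A0 ∪ B0 ∪ (A0 + B0))
  have h0 : (0 : K) ∈ W := Set.mem_insert _ _
  have w1 : A0 ⊆ W := fun x hx => Or.inr (Or.inl (Or.inl hx))
  have w2 : B0 ⊆ W := fun x hx => Or.inr (Or.inl (Or.inr hx))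
  have w3 : A0 + B0 ⊆ W := fun x hx => Or.inr (Or.inr hx)
  obtain ⟨G', i1, i2, φ, hφ⟩ := exists_finite_model K (W + (W - W)) (fW.add (fW.sub fW))
  rw [← eA, ← eB, stmt_image h0 K.subtype_injective.injOn w1 w2 w3 ht,
    ← stmt_image h0 hφ w1 w2 w3 ht]
  exact stmt_finite _ _ _

/-- A common extension of the theorems of Kneser and Pollard. -/
theorem result (G : Type u) [AddCommGroup G] (A B : Set G) (t : ℕ) (H : Set G)
    (hA : A.Finite) (hB : B.Finite) (ht : 1 ≤ t) (htA : t ≤ A.ncard) (htB : t ≤ B.ncard)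
    (hsum : ∑ i ∈ Finset.Icc 1 t, ((popSum A B i).ncard : ℤ) <
      t * A.ncard + t * B.ncard - t ^ 2)
    (hH : H = stab (popSum A B t)) :
    H.Finite ∧ ∀ s u : ℕ, t = s * H.ncard + u → 1 ≤ u → u ≤ H.ncard →
      (∃ A' B' : Set G, A' ⊆ A ∧ B' ⊆ B ∧
        (A \ A').ncard + (B \ B').ncard < u ∧
        A' + B' = popSum A' B' u ∧ popSum A' B' u = popSum A B u ∧
        H ⊆ stab (A' + B') ∧ (s = 0 → stab (A' + B') = H) ∧
        popSum A' B' t = popSum A B t ∧
        u + (holes A' H + holes B' H) < H.ncard ∧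
        (popSum A B t).ncard + (2 * s + 1) * H.ncard = (A' + H).ncard + (B' + H).ncard ∧
        (t : ℤ) * A.ncard + t * B.ncard - t ^ 2 -
          ((u : ℤ) - ((A \ A').ncard + (B \ B').ncard)) *
            (H.ncard - u - (holes A' H + holes B' H)) ≤
          ∑ i ∈ Finset.Icc 1 t, ((popSum A B i).ncard : ℤ)) ∧
      (t : ℤ) * A.ncard + t * B.ncard - t ^ 2 - u * (H.ncard - u) ≤
        ∑ i ∈ Finset.Icc 1 t, ((popSum A B i).ncard : ℤ) ∧
      (8 * ∑ i ∈ Finset.Icc 1 t, ((popSum A B i).ncard : ℤ) <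
        8 * ((t : ℤ) * A.ncard + t * B.ncard) - 9 * t ^ 2 → s = 0) := by
  obtain ⟨hne, h⟩ := stmt_all A B hA hB t ht htA htB hsum
  have fX : (popSum A B t).Finite := (hA.add hB).subset (popSum_subset A B ht)
  have fH : H.Finite := hH ▸ (fX.sub fX).subset (stab_subset hne)
  have H0 : (0 : G) ∈ H := by rw [hH, mem_stab]; simp
  subst hH
  refine ⟨fH, fun s u h1 h2 h3 => ?_⟩
  obtain ⟨A', B', a1, a2, c1, c2, c3, c4, c5, c6, c7, c8⟩ := h s u h1 h2 h3
  have key : ∀ {P Q : Prop}, P → (P → Q) → P ∧ Q := fun p f => ⟨p, f p⟩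
  refine ⟨⟨A', B', a1, a2, c1, c2, c3, c4, ?_, c5, c6, c7, c8⟩,
    key (le_trans ?_ c8) fun hb h9 => ?_⟩
  · rintro rfl
    have : t = u := by simpa using h1
    rw [c2, c3, this]
  · have hh : ∀ X : Set G, X.Finite → 0 ≤ holes X (stab (popSum A B t)) := by
      intro X hX
      have : X.ncard ≤ (X + stab (popSum A B t)).ncard :=
        Set.ncard_le_ncard (fun x hx => ⟨x, hx, 0, H0, by simp⟩) (hX.add fH)
      unfold holes
      omega
    have p1 := hh A' (hA.subset a1)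
    have p2 := hh B' (hB.subset a2)
    have p3 : ((u : ℤ) - ((A \ A').ncard + (B \ B').ncard)) *
        ((stab (popSum A B t)).ncard - u - (holes A' (stab (popSum A B t)) +
          holes B' (stab (popSum A B t)))) ≤ u * ((stab (popSum A B t)).ncard - u) :=
      mul_le_mul (by omega) (by omega) (by omega) (by omega)
    linarith
  · by_contra hs
    have h4 : (stab (popSum A B t)).ncard + u ≤ t := by
      have : 1 * (stab (popSum A B t)).ncard ≤ s * (stab (popSum A B t)).ncard :=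
        Nat.mul_le_mul_right _ (by omega)
      omega
    have h5 : ((stab (popSum A B t)).ncard : ℤ) + u ≤ t := by exact_mod_cast h4
    have h6 : (((stab (popSum A B t)).ncard : ℤ) + u) ^ 2 ≤ (t : ℤ) ^ 2 :=
      pow_le_pow_left₀ (by positivity) h5 2
    nlinarith [sq_nonneg (((stab (popSum A B t)).ncard : ℤ) - 3 * u)]

end Pool.Agent.Results.MP_cd64ef_nt.KneserPollard
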